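import Mathlib
import Pool.Agent.H925R3.DD.Stubs

/-! LOC1: coordinates adapted to the reduction (helper226) -/

namespace Pool.Agent.H226R3.DD

open Finset Pool.Agent.H925R3.DC Pool.Agent.H925R3.DD

theorem loc1 : Pool.Agent.H925R3.DD.LOC1 := by
  intro K k _ _ O φ hO a b red hred X Y Z hXYZ hne P hP
  rcases hP with ⟨hZ, hP⟩ | ⟨hZ, h, hP⟩
  · -- the point at infinity
    subst hP
    subst hZ
    have hE : Y ^ 2 = X ^ 3 := by rw [hXYZ]; ring
    have hX : X ≠ 0 := by
      intro hX
      subst hX
      have hY : Y = 0 := by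
        have : Y ^ 2 = 0 := by rw [hE]; ring
        exact pow_eq_zero_iff (two_ne_zero) |>.1 this
      exact hne ⟨rfl, hY, rfl⟩
    have hY : Y ≠ 0 := by
      intro hY
      subst hY
      have : X ^ 3 = 0 := by rw [← hE]; ring
      exact hX (pow_eq_zero_iff (three_ne_zero) |>.1 this)
    refine ⟨Y / X, 1, 1, 0, div_ne_zero hY hX, ?_, ?_, ?_, ?_⟩
    · have : (Y / X) ^ 2 * ((1 : O) : K) = X := by
        rw [Subring.coe_one, mul_one, div_pow, hE]
        field_simp
      exact this.symm
    · have : (Y / X) ^ 3 * ((1 : O) : K) = Y := by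
        rw [Subring.coe_one, mul_one, div_pow, ← hE]
        field_simp
      exact this.symm
    · rw [Subring.coe_zero, mul_zero]
    · rw [hred.1, map_one, map_zero]
      rfl
  · -- an affine point
    set x : K := X / Z ^ 2 with hxd
    set y : K := Y / Z ^ 3 with hyd
    have hXx : X = Z ^ 2 * x := by rw [hxd]; field_simp
    have hYy : Y = Z ^ 3 * y := by rw [hyd]; field_simp
    have hE : y ^ 2 = x ^ 3 + a * x + b := by
      have h6 : Z ^ 6 * y ^ 2 = Z ^ 6 * (x ^ 3 + a * x + b) := by
        rw [hXx, hYy] at hXYZ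
        linear_combination hXYZ
      exact mul_left_cancel₀ (pow_ne_zero 6 hZ) h6
    obtain ⟨h1, h2⟩ := hred.2 x y h
    by_cases hx : x ∈ O
    · obtain ⟨hy, h', e⟩ := h2 hx
      refine ⟨Z, ⟨x, hx⟩, ⟨y, hy⟩, 1, hZ, hXx, hYy, ?_, ?_⟩
      · rw [Subring.coe_one, mul_one]
      · rw [hP, e, map_one]
        rfl
    · have hrz := h1 hx
      have hx0 : x ≠ 0 := by
        intro h0
        exact hx (h0 ▸ O.zero_mem)
      have hu : x⁻¹ ∈ O := (hO.1 x).resolve_left hx
      have hφu : φ ⟨x⁻¹, hu⟩ = 0 := by
        by_contra hc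
        have := hO.2 ⟨x⁻¹, hu⟩ hc
        apply hx
        simpa using this
      let u : O := ⟨x⁻¹, hu⟩
      have huv : (u : K) = x⁻¹ := rfl
      let tau : O := 1 + (a : O) * u ^ 2 + (b : O) * u ^ 3
      have htau : (tau : K) = y ^ 2 / x ^ 3 := by
        show ((1 + (a : O) * u ^ 2 + (b : O) * u ^ 3 : O) : K) = y ^ 2 / x ^ 3
        push_cast
        rw [huv, hE]
        field_simp
      have hφtau : φ tau = 1 := by
        show φ (1 + (a : O) * u ^ 2 + (b : O) * u ^ 3) = 1
        rw [map_add, map_add, map_mul, map_mul, map_pow, map_pow, map_one]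
        have : φ u = 0 := hφu
        rw [this]
        ring
      have htinv : (tau : K)⁻¹ ∈ O := hO.2 tau (by rw [hφtau]; exact one_ne_zero)
      have htau0 : (tau : K) ≠ 0 := by
        intro h0
        have : tau = 0 := Subtype.ext h0
        rw [this, map_zero] at hφtau
        exact zero_ne_one hφtau
      have hy0 : y ≠ 0 := by
        intro h0
        apply htau0
        rw [htau, h0]
        simp
      let ti : O := ⟨(tau : K)⁻¹, htinv⟩
      have htiv : (ti : K) = x ^ 3 / y ^ 2 := by
        show (tau : K)⁻¹ = x ^ 3 / y ^ 2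
        rw [htau, inv_div]
      have hφti : φ ti = 1 := by
        have h3 : tau * ti = 1 := Subtype.ext (mul_inv_cancel₀ htau0)
        have h4 := congrArg φ h3
        rw [map_mul, hφtau, one_mul, map_one] at h4
        exact h4
      have hsq : ((u * ti : O) : K) = (x / y) ^ 2 := by
        rw [Subring.coe_mul, huv, htiv]
        field_simp
      have hz : x / y ∈ O := by
        rcases hO.1 (x / y) with h5 | h5
        · exact h5
        · have h6 : x / y = (x / y) ^ 2 * (x / y)⁻¹ := by
            have : x / y ≠ 0 := div_ne_zero hx0 hy0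
            field_simp
          rw [h6]
          exact O.mul_mem (hsq ▸ (u * ti).2) h5
      have hφz : φ ⟨x / y, hz⟩ = 0 := by
        have h7 : (⟨x / y, hz⟩ : O) ^ 2 = u * ti := Subtype.ext (by
          rw [hsq]; rfl)
        have h8 := congrArg φ h7
        have hφu' : φ u = 0 := hφu
        rw [map_pow, map_mul, hφu', zero_mul] at h8
        exact pow_eq_zero_iff (two_ne_zero) |>.1 h8
      refine ⟨Z * y / x, ti, ti, ⟨x / y, hz⟩, div_ne_zero (mul_ne_zero hZ hy0) hx0, ?_, ?_, ?_, ?_⟩
      · rw [htiv, hXx]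
        field_simp
      · rw [htiv, hYy]
        field_simp
      · show Z = Z * y / x * (x / y)
        field_simp
      · rw [hP, hrz, hφti, hφz]
        rfl

end Pool.Agent.H226R3.DD
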