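import Pool.Agent.H306R2.RG.StubsD

set_option autoImplicit false

/-! RG task ALQ: from primitive characters to all characters (helper226) -/

namespace Pool.Agent.H226R3.RG

open Finset Filter Topology MeasureTheory Pool.Agent.H306R2.RZ Pool.Agent.H306R2.RG
open Pool.Agent.H306R2.RG.StubsD Pool.Agent.H306R2.RG.StubsC

noncomputable section

open Classical in
/-- all Dirichlet characters -/
abbrev alqS : Type := Σ N : ℕ, DirichletCharacter ℂ N

/-- the character of level `c m` induced by `ψ` -/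
def alqT (p : alqS) (m : ℕ) : alqS :=
  ⟨p.1 * m, DirichletCharacter.changeLevel (Nat.dvd_mul_right p.1 m) p.2⟩

theorem alq_sig (c m N : ℕ) (ψ : DirichletCharacter ℂ c) (h : c * m = N) (hd : c ∣ N) :
    alqT ⟨c, ψ⟩ m = ⟨N, DirichletCharacter.changeLevel hd ψ⟩ := by
  subst h
  rfl

theorem alq_maps (p : alqS) (hp : p ∈ RPC) (m : ℕ) (hm : 1 ≤ m) : alqT p m ∈ QC := by
  obtain ⟨c, ψ⟩ := p
  obtain ⟨h1, _, h3, h4⟩ := hp
  have hc : c ≠ 0 := h1
  have hne : c * m ≠ 0 := Nat.mul_ne_zero hc (by omega)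
  have : NeZero (c * m) := ⟨hne⟩
  refine ⟨hne, ?_, ?_⟩
  · have h3' : ψ ^ 2 = 1 := h3
    have key : (DirichletCharacter.changeLevel (Nat.dvd_mul_right c m) ψ) ^ 2 = 1 := by
      rw [← map_pow, h3', map_one]
    exact key
  · show DirichletCharacter.changeLevel (Nat.dvd_mul_right c m) ψ ≠ 1
    intro h
    exact h4 ((DirichletCharacter.changeLevel_eq_one_iff (Nat.dvd_mul_right c m)).1 h)

theorem alq_cond (p : alqS) (hp : p ∈ RPC) (m : ℕ) (hm : 1 ≤ m) :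
    (alqT p m).2.conductor = p.1 := by
  obtain ⟨c, ψ⟩ := p
  obtain ⟨h1, h2, _, _⟩ := hp
  have hc : c ≠ 0 := h1
  have : NeZero (c * m) := ⟨Nat.mul_ne_zero hc (by omega)⟩
  show (DirichletCharacter.changeLevel (Nat.dvd_mul_right c m) ψ).conductor = c
  rw [DirichletCharacter.conductor_changeLevel]
  exact h2

theorem alq_inj (p p' : alqS) (hp : p ∈ RPC) (hp' : p' ∈ RPC) (m m' : ℕ) (hm : 1 ≤ m)
    (hm' : 1 ≤ m') (h : alqT p m = alqT p' m') : p = p' ∧ m = m' := by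
  have h1 : p.1 = p'.1 := by
    rw [← alq_cond p hp m hm, ← alq_cond p' hp' m' hm', h]
  obtain ⟨c, ψ⟩ := p
  obtain ⟨c', ψ'⟩ := p'
  have hcc : c = c' := h1
  subst hcc
  have hc : c ≠ 0 := hp.1
  have h2 : c * m = c * m' := congrArg Sigma.fst h
  have h3 : m = m' := Nat.eq_of_mul_eq_mul_left (Nat.pos_of_ne_zero hc) h2
  subst h3
  have : NeZero (c * m) := ⟨Nat.mul_ne_zero hc (by omega)⟩
  have h4 : DirichletCharacter.changeLevel (Nat.dvd_mul_right c m) ψ =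
      DirichletCharacter.changeLevel (Nat.dvd_mul_right c m) ψ' := by
    have h5 : (⟨c * m, DirichletCharacter.changeLevel (Nat.dvd_mul_right c m) ψ⟩ : alqS) =
      ⟨c * m, DirichletCharacter.changeLevel (Nat.dvd_mul_right c m) ψ'⟩ := h
    exact eq_of_heq (Sigma.mk.inj h5).2
  have h6 := DirichletCharacter.changeLevel_injective (Nat.dvd_mul_right c m) h4
  subst h6
  exact ⟨rfl, rfl⟩

theorem alq_surj (q : alqS) (hq : q ∈ QC) : ∃ (p : alqS) (m : ℕ), p ∈ RPC ∧ 1 ≤ m ∧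
    alqT p m = q := by
  obtain ⟨N, χ⟩ := q
  obtain ⟨h1, h2, h3⟩ := hq
  have hN : N ≠ 0 := h1
  have h2' : χ ^ 2 = 1 := h2
  have h3' : χ ≠ 1 := h3
  have : NeZero N := ⟨hN⟩
  obtain ⟨m, hm⟩ := χ.conductor_dvd_level
  have hm1 : 1 ≤ m := by
    rcases Nat.eq_zero_or_pos m with h | h
    · rw [h, Nat.mul_zero] at hm
      exact absurd hm hN
    · exact h
  refine ⟨⟨χ.conductor, χ.primitiveCharacter⟩, m, ⟨?_, ?_, ?_, ?_⟩, hm1, ?_⟩
  · exact χ.conductor_ne_zero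
  · exact χ.primitiveCharacter_isPrimitive
  · show χ.primitiveCharacter ^ 2 = 1
    apply DirichletCharacter.changeLevel_injective χ.conductor_dvd_level
    rw [map_pow, DirichletCharacter.changeLevel_primitiveCharacter, map_one, h2']
  · show χ.primitiveCharacter ≠ 1
    intro h
    apply h3'
    rw [← DirichletCharacter.changeLevel_primitiveCharacter χ, h, map_one]
  · rw [alq_sig _ _ N _ hm.symm χ.conductor_dvd_level,
      DirichletCharacter.changeLevel_primitiveCharacter]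

theorem alq_val {c : ℕ} (ψ : DirichletCharacter ℂ c) (h : ψ ^ 2 = 1) (x : ZMod c) :
    ψ x = 0 ∨ ψ x = 1 ∨ ψ x = -1 := by
  by_cases hx : IsUnit x
  · right
    have h1 : (ψ x) ^ 2 = 1 := by
      have h2 : (ψ ^ 2) x = (1 : DirichletCharacter ℂ c) x := by rw [h]
      rw [MulChar.pow_apply' ψ (by norm_num), MulChar.one_apply hx] at h2
      exact h2
    have h3 : (ψ x - 1) * (ψ x + 1) = 0 := by
      linear_combination h1
    rcases mul_eq_zero.1 h3 with h4 | h4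
    · exact Or.inl (sub_eq_zero.1 h4)
    · exact Or.inr (eq_neg_of_add_eq_zero_left h4)
  · left
    exact ψ.map_nonunit hx

theorem alq_factor {c : ℕ} (ψ : DirichletCharacter ℂ c) (h : ψ ^ 2 = 1) (p : ℕ)
    (hp : p.Prime) (s : ℝ) (hs : 0 < s) :
    ∃ r : ℝ, 0 < r ∧ (1 - ψ (p : ZMod c) * (p : ℂ) ^ (-(s : ℂ))) = (r : ℂ) := by
  have h1 : (p : ℂ) ^ (-(s : ℂ)) = (((p : ℝ) ^ (-s) : ℝ) : ℂ) := by
    rw [Complex.ofReal_cpow (Nat.cast_nonneg p)]
    push_cast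
    rfl
  have h2 : (0 : ℝ) < (p : ℝ) ^ (-s) := Real.rpow_pos_of_pos (by exact_mod_cast hp.pos) _
  have h3 : (p : ℝ) ^ (-s) < 1 :=
    Real.rpow_lt_one_of_one_lt_of_neg (by exact_mod_cast hp.one_lt) (by linarith)
  rcases alq_val ψ h (p : ZMod c) with h4 | h4 | h4
  · refine ⟨1, one_pos, ?_⟩
    rw [h4]
    push_cast
    ring
  · refine ⟨1 - (p : ℝ) ^ (-s), by linarith, ?_⟩
    rw [h4, h1]
    push_cast
    ring
  · refine ⟨1 + (p : ℝ) ^ (-s), by linarith, ?_⟩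
    rw [h4, h1]
    push_cast
    ring

theorem alq_pos (p : alqS) (hp : p ∈ RPC) (m : ℕ) (hm : 1 ≤ m) (h : POS p) :
    POS (alqT p m) := by
  obtain ⟨c, ψ⟩ := p
  obtain ⟨h1, _, h3, h4⟩ := hp
  have hc : c ≠ 0 := h1
  have h3' : ψ ^ 2 = 1 := h3
  have h4' : ψ ≠ 1 := h4
  obtain ⟨hz, hL⟩ := h
  have hnz : NeZero (c * m) := ⟨Nat.mul_ne_zero hc (by omega)⟩
  have hcz : NeZero c := hz
  refine ⟨hnz, fun s hs0 hs1 => ?_⟩
  have h5 := DirichletCharacter.LFunction_changeLevel (Nat.dvd_mul_right c m) ψ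
    (s := (s : ℂ)) (Or.inl h4')
  obtain ⟨h6, h7⟩ := hL s hs0 hs1
  have h8 : ∀ q ∈ (c * m).primeFactors, ∃ r : ℝ, 0 < r ∧
      (1 - ψ (q : ZMod c) * (q : ℂ) ^ (-(s : ℂ))) = (r : ℂ) := fun q hq =>
    alq_factor ψ h3' q (Nat.prime_of_mem_primeFactors hq) s hs0
  choose! r hr0 hr using h8
  have h9 : ∏ q ∈ (c * m).primeFactors, (1 - ψ (q : ZMod c) * (q : ℂ) ^ (-(s : ℂ))) =
      ((∏ q ∈ (c * m).primeFactors, r q : ℝ) : ℂ) := by
    rw [Complex.ofReal_prod]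
    exact Finset.prod_congr rfl hr
  have h10 : 0 < ∏ q ∈ (c * m).primeFactors, r q := Finset.prod_pos hr0
  have h11 : DirichletCharacter.LFunction
      (DirichletCharacter.changeLevel (Nat.dvd_mul_right c m) ψ) (s : ℂ) =
      DirichletCharacter.LFunction ψ (s : ℂ) *
        ((∏ q ∈ (c * m).primeFactors, r q : ℝ) : ℂ) := by
    rw [h5, h9]
  show (DirichletCharacter.LFunction
      (DirichletCharacter.changeLevel (Nat.dvd_mul_right c m) ψ) (s : ℂ)).im = 0 ∧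
    0 < (DirichletCharacter.LFunction
      (DirichletCharacter.changeLevel (Nat.dvd_mul_right c m) ψ) (s : ℂ)).re
  rw [h11, Complex.im_mul_ofReal, Complex.re_mul_ofReal]
  have h6' : (DirichletCharacter.LFunction ψ (s : ℂ)).im = 0 := h6
  have h7' : 0 < (DirichletCharacter.LFunction ψ (s : ℂ)).re := h7
  rw [h6']
  exact ⟨zero_mul _, mul_pos h7' h10⟩

/-- the analytic part: `Q(X) = ∑ R(X/m)` grows faster than `X` -/
theorem alq_grow (R : ℕ → ℝ) (hR : ∀ t, 0 ≤ R t) (c : ℝ) (hc : 0 < c) (N0 : ℕ)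
    (h : ∀ t, N0 ≤ t → c * t ≤ R t) (K : ℝ) :
    ∃ N : ℕ, ∀ X : ℕ, N ≤ X → K * X ≤ ∑ m ∈ Icc 1 X, R (X / m) := by
  obtain ⟨M, hM⟩ := ((Real.tendsto_sum_range_one_div_nat_succ_atTop).eventually_ge_atTop
    (2 * |K| / c + 1)).exists
  have hK : 0 ≤ 2 * |K| / c := by positivity
  refine ⟨max (2 * M) (M * (N0 + 1)), fun X hX => ?_⟩
  have hX1 : 2 * M ≤ X := le_trans (le_max_left _ _) hX
  have hX2 : M * (N0 + 1) ≤ X := le_trans (le_max_right _ _) hX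
  have h1 : ∑ i ∈ range M, R (X / (i + 1)) ≤ ∑ m ∈ Icc 1 X, R (X / m) := by
    have h2 : ∑ i ∈ range M, R (X / (i + 1)) = ∑ m ∈ Icc 1 M, R (X / m) := by
      rw [Finset.range_eq_Ico, Finset.sum_Ico_add' (fun m => R (X / m)) 0 M 1]
      rfl
    rw [h2]
    refine Finset.sum_le_sum_of_subset_of_nonneg (Finset.Icc_subset_Icc le_rfl (by omega)) ?_
    intro m _ _
    exact hR _
  refine le_trans ?_ h1
  have h3 : ∀ i ∈ range M, c * (X * (1 / ((i : ℝ) + 1)) - 1) ≤ R (X / (i + 1)) := by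
    intro i hi
    have hi' : i < M := Finset.mem_range.1 hi
    have h4 : N0 ≤ X / (i + 1) := by
      rw [Nat.le_div_iff_mul_le (by omega)]
      calc N0 * (i + 1) ≤ N0 * M := Nat.mul_le_mul_left _ (by omega)
        _ ≤ M * (N0 + 1) := by nlinarith
        _ ≤ X := hX2
    refine le_trans ?_ (h _ h4)
    apply mul_le_mul_of_nonneg_left _ hc.le
    have h5 : (X : ℝ) / ((i + 1 : ℕ) : ℝ) < ((X / (i + 1) : ℕ) : ℝ) + 1 := by
      rw [div_lt_iff₀ (by positivity)]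
      have := Nat.lt_div_mul_add (a := X) (b := i + 1) (by omega)
      have h6 : X < (X / (i + 1)) * (i + 1) + (i + 1) := this
      have h7 : ((X : ℕ) : ℝ) < (((X / (i + 1)) * (i + 1) + (i + 1) : ℕ) : ℝ) := by
        exact_mod_cast h6
      push_cast at h7 ⊢
      linarith
    push_cast at h5 ⊢
    rw [mul_one_div]
    linarith
  have h8 : ∑ i ∈ range M, c * (X * (1 / ((i : ℝ) + 1)) - 1) =
      c * (X * (∑ i ∈ range M, 1 / ((i : ℝ) + 1)) - M) := by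
    rw [← Finset.mul_sum, Finset.sum_sub_distrib, ← Finset.mul_sum]
    simp
  refine le_trans ?_ (Finset.sum_le_sum h3)
  rw [h8]
  set H : ℝ := ∑ i ∈ range M, 1 / ((i : ℝ) + 1) with hH
  have hXr : 2 * (M : ℝ) ≤ X := by exact_mod_cast hX1
  have hX0 : (0 : ℝ) ≤ X := Nat.cast_nonneg X
  have h9 : |K| ≤ c * ((H - 1 / 2)) := by
    have h10 : 2 * |K| / c ≤ 2 * (H - 1 / 2) := by
      have := abs_nonneg K
      linarith
    rw [div_le_iff₀ hc] at h10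
    nlinarith
  have h11 : c * (X * H - M) ≥ c * (X * (H - 1 / 2)) := by
    apply mul_le_mul_of_nonneg_left _ hc.le
    linarith
  have h12 : K * X ≤ |K| * X := mul_le_mul_of_nonneg_right (le_abs_self K) hX0
  have h13 : |K| * X ≤ c * (H - 1 / 2) * X := mul_le_mul_of_nonneg_right h9 hX0
  nlinarith

open Classical in
theorem ALQ (P P' c : ℝ) (hP' : 0 ≤ P') (hPP : P' < P) (hP : P ≤ 1) (hc : 0 < c)
    (h0 : ∀ X : ℕ, (StubsC.RPC ∩ {p | p.1 ≤ X}).Finite ∧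
      ((StubsC.RPC ∩ {p | p.1 ≤ X}).ncard : ℝ) ≤ 8 * (X + 1))
    (h : ∃ N : ℕ, ∀ X : ℕ, N ≤ X →
      c * X ≤ ((StubsC.RPC ∩ {p | p.1 ≤ X}).ncard : ℝ) ∧
      P * ((StubsC.RPC ∩ {p | p.1 ≤ X}).ncard : ℝ) ≤
        ((StubsC.RPC ∩ {p | p.1 ≤ X} ∩ {p | StubsC.POS p}).ncard : ℝ)) :
    (∀ X : ℕ, (QC ∩ {p | p.1 ≤ X}).Finite) ∧
    ∃ N : ℕ, ∀ X : ℕ, N ≤ X →
      P' * ((QC ∩ {p | p.1 ≤ X}).ncard : ℝ) ≤ ((QC ∩ {p | p.1 ≤ X} ∩ {p | StubsC.POS p}).ncard : ℝ) := by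
  obtain ⟨N0, hN0⟩ := h
  let RF : ℕ → Finset alqS := fun t => (h0 t).1.toFinset
  have hRF : ∀ t p, p ∈ RF t ↔ p ∈ RPC ∧ p.1 ≤ t := fun t p => (h0 t).1.mem_toFinset
  have hRc : ∀ t, ((RPC ∩ {p | p.1 ≤ t}).ncard : ℝ) = ((RF t).card : ℝ) := by
    intro t
    rw [Set.ncard_eq_toFinset_card _ (h0 t).1]
  let T : ℕ → Finset (Σ _ : ℕ, alqS) := fun X => (Icc 1 X).sigma fun m => RF (X / m)
  have hT : ∀ X (y : Σ _ : ℕ, alqS), y ∈ T X ↔ (1 ≤ y.1 ∧ y.1 ≤ X) ∧ y.2 ∈ RPC ∧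
      y.2.1 ≤ X / y.1 := by
    intro X y
    rw [Finset.mem_sigma, Finset.mem_Icc, hRF]
  let g : (Σ _ : ℕ, alqS) → alqS := fun y => alqT y.2 y.1
  have hset : ∀ X : ℕ, (QC ∩ {p | p.1 ≤ X}) = (((T X).image g : Finset alqS) : Set alqS) := by
    intro X
    ext q
    rw [Finset.mem_coe, Finset.mem_image]
    constructor
    · rintro ⟨hq, hqX⟩
      obtain ⟨p, m, hp, hm, rfl⟩ := alq_surj q hq
      have hqX' : p.1 * m ≤ X := hqX
      have hp0 : 0 < p.1 := Nat.pos_of_ne_zero hp.1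
      refine ⟨⟨m, p⟩, (hT X _).2 ⟨⟨hm, ?_⟩, hp, ?_⟩, rfl⟩
      · exact le_trans (Nat.le_mul_of_pos_left m hp0) hqX'
      · exact (Nat.le_div_iff_mul_le (show 0 < m from hm)).2 hqX'
    · rintro ⟨⟨m, p⟩, hy, rfl⟩
      obtain ⟨⟨hm1, hm2⟩, hp, hpX⟩ := (hT X _).1 hy
      refine ⟨alq_maps p hp m hm1, ?_⟩
      show p.1 * m ≤ X
      exact (Nat.le_div_iff_mul_le (by
        have : 1 ≤ m := hm1
        omega)).1 hpX
  have hinj : ∀ X, Set.InjOn g (T X : Set (Σ _ : ℕ, alqS)) := by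
    intro X y hy y' hy' hyy
    obtain ⟨m, p⟩ := y
    obtain ⟨m', p'⟩ := y'
    obtain ⟨⟨hm1, _⟩, hp, _⟩ := (hT X _).1 (Finset.mem_coe.1 hy)
    obtain ⟨⟨hm1', _⟩, hp', _⟩ := (hT X _).1 (Finset.mem_coe.1 hy')
    obtain ⟨h1, h2⟩ := alq_inj p p' hp hp' m m' hm1 hm1' hyy
    subst h1
    subst h2
    rfl
  have hfin : ∀ X : ℕ, (QC ∩ {p | p.1 ≤ X}).Finite := fun X => by
    rw [hset X]
    exact Finset.finite_toSet _
  have hcard : ∀ X : ℕ, ((QC ∩ {p | p.1 ≤ X}).ncard : ℝ) =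
      ∑ m ∈ Icc 1 X, ((RF (X / m)).card : ℝ) := by
    intro X
    rw [hset X, Set.ncard_coe_finset, Finset.card_image_of_injOn (hinj X), Finset.card_sigma]
    push_cast
    rfl
  -- the bad ones
  have hbad : ∀ X : ℕ, ((QC ∩ {p | p.1 ≤ X} ∩ {p | POS p}ᶜ).ncard : ℝ) ≤
      ∑ m ∈ Icc 1 X, (((RF (X / m)).filter fun p => ¬ POS p).card : ℝ) := by
    intro X
    let TB : Finset (Σ _ : ℕ, alqS) :=
      (Icc 1 X).sigma fun m => (RF (X / m)).filter fun p => ¬ POS p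
    have h1 : (QC ∩ {p | p.1 ≤ X} ∩ {p | POS p}ᶜ) ⊆ ((TB.image g : Finset alqS) : Set alqS) := by
      rintro q ⟨⟨hq, hqX⟩, hqP⟩
      rw [Finset.mem_coe, Finset.mem_image]
      obtain ⟨p, m, hp, hm, rfl⟩ := alq_surj q hq
      have hqX' : p.1 * m ≤ X := hqX
      have hp0 : 0 < p.1 := Nat.pos_of_ne_zero hp.1
      refine ⟨⟨m, p⟩, ?_, rfl⟩
      rw [Finset.mem_sigma, Finset.mem_Icc, Finset.mem_filter, hRF]
      refine ⟨⟨hm, le_trans (Nat.le_mul_of_pos_left m hp0) hqX'⟩,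
        ⟨hp, (Nat.le_div_iff_mul_le (show 0 < m from hm)).2 hqX'⟩, fun hpos => ?_⟩
      exact hqP (alq_pos p hp m hm hpos)
    have h2 : (QC ∩ {p | p.1 ≤ X} ∩ {p | POS p}ᶜ).ncard ≤ TB.card := by
      refine le_trans (Set.ncard_le_ncard h1 (Finset.finite_toSet _)) ?_
      rw [Set.ncard_coe_finset]
      exact Finset.card_image_le
    have h3 : TB.card = ∑ m ∈ Icc 1 X, ((RF (X / m)).filter fun p => ¬ POS p).card :=
      Finset.card_sigma _ _
    have h4 : ((QC ∩ {p | p.1 ≤ X} ∩ {p | POS p}ᶜ).ncard : ℝ) ≤ (TB.card : ℝ) := by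
      exact_mod_cast h2
    rw [h3] at h4
    push_cast at h4
    exact h4
  -- bounds for the bad primitive ones
  have hB : ∀ t : ℕ, (((RF t).filter fun p => ¬ POS p).card : ℝ) ≤
      (1 - P) * ((RF t).card : ℝ) + 8 * ((N0 : ℝ) + 1) := by
    intro t
    have hle : (((RF t).filter fun p => ¬ POS p).card : ℝ) ≤ ((RF t).card : ℝ) := by
      exact_mod_cast Finset.card_filter_le _ _
    by_cases ht : N0 ≤ t
    · have h1 := (hN0 t ht).2
      have h2 : ((RPC ∩ {p | p.1 ≤ t} ∩ {p | POS p}).ncard : ℝ) =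
          (((RF t).filter fun p => POS p).card : ℝ) := by
        have : (RPC ∩ {p | p.1 ≤ t} ∩ {p | POS p}) =
            (((RF t).filter fun p => POS p : Finset alqS) : Set alqS) := by
          ext p
          rw [Finset.mem_coe, Finset.mem_filter, hRF]
          rfl
        rw [this, Set.ncard_coe_finset]
      rw [h2, hRc] at h1
      have h3 : (((RF t).filter fun p => POS p).card : ℝ) +
          (((RF t).filter fun p => ¬ POS p).card : ℝ) = ((RF t).card : ℝ) := by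
        exact_mod_cast Finset.card_filter_add_card_filter_not (s := RF t) (fun p => POS p)
      have h4 : (0 : ℝ) ≤ 8 * ((N0 : ℝ) + 1) := by positivity
      linarith
    · have h1 : ((RF t).card : ℝ) ≤ 8 * ((t : ℝ) + 1) := by
        rw [← hRc]
        exact (h0 t).2
      have h2 : (t : ℝ) ≤ N0 := by exact_mod_cast (by omega : t ≤ N0)
      have h3 : 0 ≤ (1 - P) * ((RF t).card : ℝ) := mul_nonneg (by linarith) (Nat.cast_nonneg _)
      linarith
  obtain ⟨N1, hN1⟩ := alq_grow (fun t => ((RF t).card : ℝ)) (fun t => Nat.cast_nonneg _) c hc N0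
    (fun t ht => by
      have := (hN0 t ht).1
      rw [hRc] at this
      exact this) (8 * ((N0 : ℝ) + 1) / (P - P'))
  refine ⟨hfin, N1, fun X hX => ?_⟩
  have h1 := hN1 X hX
  have hQ := hcard X
  set Q : ℝ := ((QC ∩ {p | p.1 ≤ X}).ncard : ℝ) with hQd
  have h2 : ((QC ∩ {p | p.1 ≤ X} ∩ {p | POS p}ᶜ).ncard : ℝ) ≤
      (1 - P) * Q + 8 * ((N0 : ℝ) + 1) * X := by
    refine le_trans (hbad X) (le_trans (Finset.sum_le_sum fun m _ => hB (X / m)) ?_)
    rw [Finset.sum_add_distrib, ← Finset.mul_sum, ← hQ, Finset.sum_const, Nat.card_Icc,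
      nsmul_eq_mul]
    apply le_of_eq
    push_cast
    simp
    ring
  have h3 : 8 * ((N0 : ℝ) + 1) * X ≤ (P - P') * Q := by
    have h4 : 8 * ((N0 : ℝ) + 1) / (P - P') * X ≤ Q := by
      rw [hQ]
      exact h1
    have h5 : 0 < P - P' := by linarith
    have h6 : (P - P') * (8 * ((N0 : ℝ) + 1) / (P - P') * X) ≤ (P - P') * Q :=
      mul_le_mul_of_nonneg_left h4 h5.le
    have h7 : (P - P') * (8 * ((N0 : ℝ) + 1) / (P - P') * X) = 8 * ((N0 : ℝ) + 1) * X := by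
      field_simp
    linarith
  have h8 : Q = ((QC ∩ {p | p.1 ≤ X} ∩ {p | POS p}).ncard : ℝ) +
      ((QC ∩ {p | p.1 ≤ X} ∩ {p | POS p}ᶜ).ncard : ℝ) := by
    have h9 := Set.ncard_inter_add_ncard_sdiff_eq_ncard (QC ∩ {p : alqS | p.1 ≤ X}) {p | POS p}
      (hfin X)
    rw [Set.sdiff_eq] at h9
    rw [hQd, ← h9]
    push_cast
    rfl
  nlinarith

end

end Pool.Agent.H226R3.RG
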